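import Pool.Agent.Helper67.DO.Main

/-!
# MP_d07457_gt: the continuous cohomology of `Diff^ω_+(S^1)` is generated by the Euler class and the
Godbillon-Vey class

`DiffOmega` is the group of orientation preserving real analytic diffeomorphisms of `ℝ/ℤ` with the inductive
limit topology of the metric spaces `(G_n, d_n)`. Cochains are continuous on `Fin p → DiffOmega` with the
product topology.
-/

namespace Pool.Agent.Results.MP_d07457_gt.Generated

open Pool.Agent.Helper67.DO
open scoped BigOperators

theorem result :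
    -- the Euler cochain does not depend on the lifts and is the coboundary of `τ` on lifts
    (∀ (f g : DiffOmega) (F H : ℝ → ℝ), LiftG f F → LiftG g H →
      eul f g = tau F + tau H - tau (fun x => F (H x))) ∧
    (∀ (F : ℝ → ℝ) (k : ℤ), IsLift F → tau (fun x => F x + k) = tau F + k) ∧
    -- the Bott-Thurston cochain does not depend on the lifts
    (∀ (f g : DiffOmega) (F H : ℝ → ℝ), LiftG f F → LiftG g H → gvc f g =
      ∫ x in (0 : ℝ)..1, Real.log (deriv (fun t => F (H t)) x) * deriv (fun t => Real.log (deriv H t)) x) ∧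
    -- both are continuous cocycles
    Continuous (two eul) ∧ Continuous (two gvc) ∧ cobd 2 (two eul) = 0 ∧ cobd 2 (two gvc) = 0 ∧
    -- degree 0: every cochain is a multiple of `e^0 = 1`
    (∀ c : (Fin (2 * 0) → DiffOmega) → ℝ, ∃ x : ℝ, ∀ g, c g = x * cupPow eul 0 g) ∧
    -- degree `2(m+1)`: every continuous cocycle is cohomologous to `x e^(m+1) + y gv^(m+1)`
    (∀ (m : ℕ) (c : (Fin (2 * m + 2) → DiffOmega) → ℝ), Continuous c → cobd (2 * m + 2) c = 0 →
      ∃ (x y : ℝ) (b : (Fin (2 * m + 1) → DiffOmega) → ℝ), Continuous b ∧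
        ∀ g : Fin (2 * m + 2) → DiffOmega,
          c g = x * cupPow eul (m + 1) g + y * cupPow gvc (m + 1) g + cobd (2 * m + 1) b g) ∧
    -- degree `2m+1`: every continuous cocycle is a continuous coboundary
    (∀ (m : ℕ) (c : (Fin (2 * m + 1) → DiffOmega) → ℝ), Continuous c → cobd (2 * m + 1) c = 0 →
      ∃ b : (Fin (2 * m) → DiffOmega) → ℝ, Continuous b ∧ c = cobd (2 * m) b) := by
  obtain ⟨h1, h2, h3, h4, h5, h6, h7, h8, h9⟩ := m_FINAL
  refine ⟨h1, h2, h3, h4, h5, h6, h7, fun c => ⟨c fun i => i.elim0, fun g => ?_⟩, h8, h9⟩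
  have e : g = fun i => i.elim0 := funext fun i => i.elim0
  have e1 : cupPow eul 0 g = 1 := by
    unfold cupPow
    simp
  rw [e1, mul_one, e]

end Pool.Agent.Results.MP_d07457_gt.Generated
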